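import Mathlib

set_option autoImplicit false

namespace Pool.Agent.H.MP_de34bb_al

open Matrix Matrix.SpecialLinearGroup
open scoped LinearAlgebra.Projectivization commutatorElement

instance five : Fact (Nat.Prime 5) := ⟨by norm_num⟩

/-- the field -/
abbrev F : Type := ZMod 5
/-- special linear group -/
abbrev SL4 : Type := Matrix.SpecialLinearGroup (Fin 4) F
/-- general linear group -/
abbrev GL4 : Type := GL (Fin 4) F

theorem diag_dec : ∀ i j : Fin 4, i ≠ j → ∀ c d : F, c * d = 1 →
    diagonal (fun k => if k = i then c else if k = j then d else 1) =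
      (1 + single i j c) * (1 + single j i (-d)) * (1 + single i j c) * (1 + single i j (-1)) *
        (1 + single j i 1) * (1 + single i j (-1)) := by
  decide +kernel

theorem comm_dec : ∀ i j : Fin 4, i ≠ j → ∃ k : Fin 4, i ≠ k ∧ k ≠ j ∧ ∀ c : F,
    (1 + single i k c) * (1 + single k j 1) * (1 + single i k (-c)) * (1 + single k j (-1)) =
      (1 + single i j c : Matrix (Fin 4) (Fin 4) F) := by
  decide +kernel

theorem trans_ind (P : SL4 → Prop)
    (ht : ∀ (i j : Fin 4) (h : i ≠ j) c, P (SpecialLinearGroup.transvection h c))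
    (hmul : ∀ A B, P A → P B → P (A * B)) (A : SL4) : P A := by
  refine diagonal_transvection_induction' P _ (fun i j hij c hc ↦ ?_) ht hmul
  have : diag2n hij c hc = SpecialLinearGroup.transvection hij c *
      SpecialLinearGroup.transvection hij.symm (- c⁻¹) *
      SpecialLinearGroup.transvection hij c *
      SpecialLinearGroup.transvection hij (-1) *
      SpecialLinearGroup.transvection hij.symm 1 *
      SpecialLinearGroup.transvection hij (-1) :=
    Subtype.ext (diag_dec i j hij c c⁻¹ (mul_inv_cancel₀ hc))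
  rw [this]
  refine hmul _ _ (hmul _ _ (hmul _ _ (hmul _ _ (hmul _ _ ?_ ?_) ?_) ?_) ?_) ?_
  all_goals exact ht _ _ _ _

theorem perfect : commutator SL4 = ⊤ := by
  refine le_antisymm le_top (fun A _ ↦ trans_ind _ ?_ (fun _ _ ↦ mul_mem) A)
  intro i j hij c
  obtain ⟨k, h1, h2, h3⟩ := comm_dec i j hij
  have : SpecialLinearGroup.transvection hij c =
      ⁅SpecialLinearGroup.transvection h1 c, SpecialLinearGroup.transvection h2 (1 : F)⁆ := by
    rw [commutatorElement_def, transvection_inv, transvection_inv]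
    exact Subtype.ext (h3 c).symm
  rw [this]
  exact Subgroup.commutator_mem_commutator (Subgroup.mem_top _) (Subgroup.mem_top _)

/-- Iwasawa data -/
noncomputable def iwa : MulAction.IwasawaStructure SL4 (ℙ F (Fin 4 → F)) where
  T p := lineStab p.submodule
  is_comm p := by
    rw [← Projectivization.mk_rep p, Projectivization.submodule_mk]
    exact lineStab_isMulCommutative_of_span p.rep p.rep_nonzero
  is_conj g p := by rw [PSL.smul_submodule, Matrix.SpecialLinearGroup.lineStab_smul]
  is_generator := by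
    refine le_antisymm le_top (fun A _ ↦ trans_ind _ ?_ (fun _ _ ↦ mul_mem) A)
    intro i j hij c
    have h := SL2Gen.transvection_mem_lineStab hij c
    rw [← Projectivization.submodule_mk (K := F) _ (Pi.single_ne_zero_iff.2 one_ne_zero)] at h
    exact Subgroup.mem_iSup_of_mem _ h

theorem quasi (N : Subgroup SL4) [N.Normal] : N = ⊤ ∨ N ≤ Subgroup.center SL4 := by
  by_cases h : MulAction.fixedPoints N (ℙ F (Fin 4 → F)) = Set.univ
  · right
    intro n hn
    rw [← Projectivization.SL_mulAction_ker, MonoidHom.mem_ker]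
    ext p
    exact Set.eq_univ_iff_forall.mp h p ⟨n, hn⟩
  · left
    exact top_le_iff.mp (perfect ▸ iwa.commutator_le N h)

theorem dmul (a b : F) : diagonal ![a, 1, 1, 1] * diagonal ![b, 1, 1, 1] =
    diagonal ![a * b, 1, 1, 1] := by
  rw [diagonal_mul_diagonal]; congr 1; funext i; fin_cases i <;> simp

theorem done : diagonal ![(1 : F), 1, 1, 1] = 1 := by
  rw [← diagonal_one]; congr 1; funext i; fin_cases i <;> simp

/-- pseudo-reflections -/
def d : Fˣ →* GL4 where
  toFun u := ⟨diagonal ![(u : F), 1, 1, 1], diagonal ![((u⁻¹ : Fˣ) : F), 1, 1, 1], by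
      rw [dmul, Units.mul_inv, done], by
      rw [dmul, Units.inv_mul, done]⟩
  map_one' := Units.ext done
  map_mul' u v := Units.ext (dmul _ _).symm

theorem d_val (u : Fˣ) : (d u : Matrix (Fin 4) (Fin 4) F) = diagonal ![(u : F), 1, 1, 1] := rfl

theorem det_d (u : Fˣ) : GeneralLinearGroup.det (d u) = u := by
  apply Units.ext
  simp [d_val, det_diagonal, Fin.prod_univ_four]

theorem d_inj : Function.Injective d := fun u v h => by rw [← det_d u, h, det_d]

theorem d_comm (g : GL4) (u v : Fˣ) (hu : u ≠ 1) (h : g * d u = d u * g) :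
    g * d v = d v * g := by
  have h1 : ∀ i j, (g : Matrix (Fin 4) (Fin 4) F) i j * ![(u : F), 1, 1, 1] j =
      ![(u : F), 1, 1, 1] i * (g : Matrix (Fin 4) (Fin 4) F) i j := by
    intro i j
    have := congrArg (fun x : GL4 => (x : Matrix (Fin 4) (Fin 4) F) i j) h
    simpa [d_val] using this
  have hu' : (u : F) - 1 ≠ 0 := sub_ne_zero.2 (by simpa using hu)
  have h2 : ∀ j, j ≠ 0 → (g : Matrix (Fin 4) (Fin 4) F) 0 j = 0 ∧
      (g : Matrix (Fin 4) (Fin 4) F) j 0 = 0 := by
    intro j hj
    have e : ![(u : F), 1, 1, 1] j = 1 := by fin_cases j <;> simp_all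
    have a1 := h1 0 j
    have a2 := h1 j 0
    rw [e] at a1 a2
    simp only [cons_val_zero] at a1 a2
    constructor
    · apply mul_left_cancel₀ hu'; linear_combination -a1
    · apply mul_left_cancel₀ hu'; linear_combination a2
  apply Units.ext
  ext i j
  simp only [Units.val_mul, d_val, mul_diagonal, diagonal_mul]
  have b1 := h2 1 (by decide)
  have b2 := h2 2 (by decide)
  have b3 := h2 3 (by decide)
  fin_cases i <;> fin_cases j <;> simp [b1.1, b1.2, b2.1, b2.2, b3.1, b3.2, mul_comm]

/-- the component -/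
def L : Subgroup GL4 := (Matrix.SpecialLinearGroup.toGL : SL4 →* GL4).range

theorem mem_L (g : GL4) : g ∈ L ↔ GeneralLinearGroup.det g = 1 := by
  constructor
  · rintro ⟨s, rfl⟩
    apply Units.ext
    simp
  · intro h
    have hd : (g : Matrix (Fin 4) (Fin 4) F).det = 1 := by simpa using congrArg Units.val h
    refine ⟨⟨g, hd⟩, ?_⟩
    ext i j
    simp

theorem cent_le : Subgroup.centralizer (L : Set GL4) ≤ L := by
  intro g hg
  rw [Subgroup.mem_centralizer_iff] at hg
  obtain ⟨r, hr⟩ := mem_range_scalar_of_commute_transvectionStruct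
    (M := (g : Matrix (Fin 4) (Fin 4) F)) (fun t => by
      have := hg _ ⟨t.toSpecialLinearGroup, rfl⟩
      exact congrArg Units.val this)
  rw [mem_L]
  apply Units.ext
  have h0 : (g : Matrix (Fin 4) (Fin 4) F).det ≠ 0 := (GeneralLinearGroup.det g).ne_zero
  show (g : Matrix (Fin 4) (Fin 4) F).det = 1
  rw [← hr] at h0 ⊢
  simp only [scalar_apply, det_diagonal, Finset.prod_const, Finset.card_univ,
    Fintype.card_fin] at h0 ⊢
  clear hr
  revert r
  decide

theorem toGL_inj : Function.Injective (Matrix.SpecialLinearGroup.toGL : SL4 →* GL4) :=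
  Matrix.SpecialLinearGroup.toGL_injective

theorem card_A : Nat.card d.range = 4 := by
  rw [← Nat.card_congr (d.ofInjective d_inj).toEquiv, Nat.card_eq_fintype_card]
  rfl

theorem cyc_A : IsCyclic d.range := isCyclic_of_surjective _ d.rangeRestrict_surjective

theorem ti (g : GL4) : (∀ x ∈ d.range, g * x * g⁻¹ ∈ d.range → x = 1) ∨
    (∀ x ∈ d.range, g * x * g⁻¹ ∈ d.range) := by
  by_cases h : ∀ x ∈ d.range, g * x * g⁻¹ ∈ d.range → x = 1
  · exact Or.inl h
  right
  push Not at h
  obtain ⟨_, ⟨u, rfl⟩, ⟨v, hv⟩, hne⟩ := h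
  have hu : u ≠ 1 := fun h => hne (by rw [h, map_one])
  have huv : v = u := by
    have := congrArg GeneralLinearGroup.det hv
    rw [map_mul, map_mul, map_inv, det_d, det_d, mul_comm, ← mul_assoc, inv_mul_cancel,
      one_mul] at this
    exact this
  subst huv
  have hc : g * d v = d v * g := by
    conv_rhs => rw [hv]
    group
  rintro _ ⟨w, rfl⟩
  refine ⟨w, ?_⟩
  rw [d_comm g v w hu hc]; group

theorem L_perfect : ⁅L, L⁆ = L := by
  unfold L
  rw [MonoidHom.range_eq_map, ← Subgroup.map_commutator, ← commutator_def, perfect]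

theorem L_ne : L ≠ ⊥ := by
  intro h
  have : (Matrix.SpecialLinearGroup.toGL (SpecialLinearGroup.transvection
    (show (0 : Fin 4) ≠ 1 by decide) (1 : F)) : GL4) ∈ L := ⟨_, rfl⟩
  rw [h, Subgroup.mem_bot] at this
  have h2 := congrArg (fun x : GL4 => (x : Matrix (Fin 4) (Fin 4) F) 0 1) this
  simp [transvection_coe] at h2

theorem L_quasi (N : Subgroup GL4) (h1 : N ≤ L) (h2 : ∀ l ∈ L, ∀ n ∈ N, l * n * l⁻¹ ∈ N) :
    N = L ∨ N ≤ Subgroup.centralizer (L : Set GL4) := by
  have : (N.comap (Matrix.SpecialLinearGroup.toGL : SL4 →* GL4)).Normal := ⟨fun n hn g => by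
    rw [Subgroup.mem_comap, map_mul, map_mul, map_inv]
    exact h2 _ ⟨g, rfl⟩ _ hn⟩
  rcases quasi (N.comap (Matrix.SpecialLinearGroup.toGL : SL4 →* GL4)) with h | h
  · left
    refine le_antisymm h1 ?_
    rintro _ ⟨s, rfl⟩
    exact (h ▸ Subgroup.mem_top s : s ∈ N.comap _)
  · right
    intro n hn
    obtain ⟨s, rfl⟩ := h1 hn
    rw [Subgroup.mem_centralizer_iff]
    rintro _ ⟨t, rfl⟩
    rw [← map_mul, ← map_mul, Subgroup.mem_center_iff.1 (h hn) t]

theorem L_normal (x y : GL4) (hy : y ∈ L) : x * y * x⁻¹ ∈ L := by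
  rw [mem_L] at hy ⊢
  rw [map_mul, map_mul, hy, map_inv, mul_one, mul_inv_cancel]

theorem meet : d.range ⊓ (L ⊔ Subgroup.centralizer (L : Set GL4)) = ⊥ := by
  rw [sup_eq_left.2 cent_le, eq_bot_iff]
  rintro _ ⟨⟨u, rfl⟩, h⟩
  have := (mem_L _).1 h
  rw [det_d] at this
  rw [this, map_one]
  exact Subgroup.one_mem _

end Pool.Agent.H.MP_de34bb_al
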